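import Pool.Agent.Y285.SZ.Half
import Pool.Agent.Helper630.Szego.Final

/-!
Contractive functions all of whose extension measures are absolutely continuous need not satisfy
any integrability condition at all in place of the Szego condition, and the defect
`det (I - X* X)` of such a function can be arbitrarily small along a whole arc.
-/

open MeasureTheory Filter Topology
open scoped ENNReal
open Pool.Agent.Helper630.Szego

namespace Pool.Agent.Results.MP_3b4bb3_an.NoIntegrability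

lemma lint_inv : ∫⁻ x in Set.Ioo (0:ℝ) 1, ENNReal.ofReal x⁻¹ = ∞ := by
  by_contra h
  apply inv_not_integrable
  refine ⟨measurable_inv.aestronglyMeasurable, ?_⟩
  rw [hasFiniteIntegral_iff_ofReal]
  · exact lt_top_iff_ne_top.2 h
  · exact (ae_restrict_iff' measurableSet_Ioo).2 (ae_of_all _ fun x hx => inv_nonneg.2 hx.1.le)

lemma big (g : TT → ℝ) (hg : ∀ x : ℝ, 0 < x → x < 1 → x⁻¹ ≤ g (x : TT)) :
    ∫⁻ θ : TT, ENNReal.ofReal (g θ) = ∞ := by
  have h1 := AddCircle.lintegral_preimage (2 * Real.pi) 0 (fun θ : TT => ENNReal.ofReal (g θ))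
  rw [← h1, ← top_le_iff, ← lint_inv]
  have hsub : Set.Ioo (0:ℝ) 1 ⊆ Set.Ioc 0 (0 + 2 * Real.pi) := by
    intro x hx
    exact ⟨hx.1, by linarith [hx.2, Real.pi_gt_three]⟩
  exact le_trans (setLIntegral_mono' measurableSet_Ioo fun x hx =>
    ENNReal.ofReal_le_ofReal (hg x hx.1 hx.2)) (lintegral_mono_set hsub)

/-- For all finite-dimensional `N`, `M` with `0 < dim N ≤ dim M`:

(1) for every `ω : (0,1) → ℝ` which is bounded below by a positive constant on `[a,1)`, for each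
`a > 0`, there is `χ` in `𝔹_a(M,N)` whose boundary function `X` satisfies `det (I - X* X) > 0` at
all points and `det (I - X* X) ≤ ω θ` at `e^{iθ}`, for all `0 < θ < 1`;

(2) for every `Φ : ℝ → ℝ` with `Φ t → ∞` as `t → ∞` there is `χ` in `𝔹_a(M,N)` whose boundary
function `X` satisfies `det (I - X* X) > 0` at all points, `∫ Φ (- log det (I - X* X)) dm = ∞` and
`∫ log det (I - X* X) dm = -∞`. -/
theorem result (N M : Type*) [NormedAddCommGroup N] [InnerProductSpace ℂ N] [CompleteSpace N]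
    [FiniteDimensional ℂ N] [NormedAddCommGroup M] [InnerProductSpace ℂ M] [CompleteSpace M]
    [FiniteDimensional ℂ M] (hN : 0 < Module.finrank ℂ N)
    (hNM : Module.finrank ℂ N ≤ Module.finrank ℂ M) :
    (∀ ω : ℝ → ℝ, (∀ a > 0, ∃ η > 0, ∀ θ, a ≤ θ → θ < 1 → η ≤ ω θ) →
      ∃ χ : ℂ → M →L[ℂ] N, InBa χ ∧ ∃ X : TT → M →L[ℂ] N, IsBoundary χ X ∧
        (∀ θ, 0 < szDet (X θ)) ∧ ∀ θ : ℝ, 0 < θ → θ < 1 → szDet (X (θ : TT)) ≤ ω θ) ∧
    (∀ Φ : ℝ → ℝ, Tendsto Φ atTop atTop →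
      ∃ χ : ℂ → M →L[ℂ] N, InBa χ ∧ ∃ X : TT → M →L[ℂ] N, IsBoundary χ X ∧
        (∀ θ, 0 < szDet (X θ)) ∧ ∫⁻ θ, ENNReal.ofReal (Φ (-Real.log (szDet (X θ)))) = ∞ ∧
        ∫⁻ θ, ENNReal.ofReal (-Real.log (szDet (X θ))) = ∞) := by
  have H : ∀ ω : ℝ → ℝ, (∀ a > 0, ∃ η > 0, ∀ θ, a ≤ θ → θ < 1 → η ≤ ω θ) →
      ∃ χ : ℂ → M →L[ℂ] N, InBa χ ∧ ∃ X : TT → M →L[ℂ] N, IsBoundary χ X ∧
        (∀ θ, 0 < szDet (X θ)) ∧ ∀ θ : ℝ, 0 < θ → θ < 1 → szDet (X (θ : TT)) ≤ ω θ := by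
    intro ω hω
    have h1 : ∀ k : ℕ, ∃ η > 0, ∀ θ, 1 / ((k : ℝ) + 1) ≤ θ → θ < 1 → η ≤ ω θ :=
      fun k => hω _ (by positivity)
    choose η hη0 hη using h1
    set δ : ℕ → ℝ := fun k => 1 / 12 * ∏ j ∈ Finset.range (k + 1), min 1 (η j) with hδ
    have hm0 : ∀ j, 0 < min 1 (η j) := fun j => lt_min one_pos (hη0 j)
    have hm1 : ∀ j, min 1 (η j) ≤ 1 := fun j => min_le_left _ _
    have hp0 : ∀ k, 0 < ∏ j ∈ Finset.range k, min 1 (η j) :=
      fun k => Finset.prod_pos fun j _ => hm0 j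
    have hp1 : ∀ k, ∏ j ∈ Finset.range k, min 1 (η j) ≤ 1 :=
      fun k => Finset.prod_le_one (fun j _ => (hm0 j).le) fun j _ => hm1 j
    have hwt : Pool.Agent.Y285.SZ.IsWt δ := by
      refine ⟨fun k => ?_, fun k => ?_, antitone_nat_of_succ_le fun k => ?_⟩
      · have := hp0 (k + 1)
        simp only [hδ]; positivity
      · have := hp1 (k + 1)
        simp only [hδ]; linarith
      · simp only [hδ]
        rw [Finset.prod_range_succ _ (k + 1)]
        have h2 := hp0 (k + 1)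
        have h3 := hm1 (k + 1)
        nlinarith
    obtain ⟨χ, hχ, X, hX, hpos, hle⟩ := Pool.Agent.Y285.SZ.mainD hwt N M hN hNM
    refine ⟨χ, hχ, X, hX, hpos, fun θ h0 h1 => (hle θ h0 h1).trans ?_⟩
    set k := ⌊1 / θ⌋₊ with hk
    have h2 : 1 / ((k : ℝ) + 1) ≤ θ := by
      have h3 : 1 / θ < k + 1 := Nat.lt_floor_add_one _
      rw [div_lt_iff₀ h0] at h3
      rw [div_le_iff₀ (by positivity)]
      linarith
    refine le_trans ?_ (hη k θ h2 h1)
    have h4 : (12:ℝ) * δ k = ∏ j ∈ Finset.range (k + 1), min 1 (η j) := by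
      simp only [hδ]; ring
    rw [h4, Finset.prod_range_succ]
    have h5 := hp1 k
    have h6 := hp0 k
    have h7 := hm0 k
    have h8 : min 1 (η k) ≤ η k := min_le_right _ _
    nlinarith
  refine ⟨H, fun Φ hΦ => ?_⟩
  have h1 : ∀ k : ℕ, ∃ L : ℝ, ∀ t ≥ L, (k : ℝ) + 1 ≤ Φ t :=
    fun k => eventually_atTop.1 (hΦ.eventually_ge_atTop _)
  choose L hL using h1
  set S : ℕ → ℝ := fun k => ∑ j ∈ Finset.range (k + 1), max (L j) ((j : ℝ) + 1) with hS
  have hpos : ∀ j : ℕ, 0 ≤ max (L j) ((j : ℝ) + 1) := fun j => le_max_of_le_right (by positivity)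
  have hSm : Monotone S := monotone_nat_of_le_succ fun k => by
    simp only [hS]
    rw [Finset.sum_range_succ _ (k + 1)]
    linarith [hpos (k + 1)]
  have hSk : ∀ k, max (L k) ((k : ℝ) + 1) ≤ S k := by
    intro k
    simp only [hS]
    rw [Finset.sum_range_succ]
    have : 0 ≤ ∑ j ∈ Finset.range k, max (L j) ((j : ℝ) + 1) := Finset.sum_nonneg fun j _ => hpos j
    linarith
  obtain ⟨χ, hχ, X, hX, hX0, hle⟩ := H (fun θ => Real.exp (-S ⌊1 / θ⌋₊)) (fun a ha =>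
    ⟨Real.exp (-S ⌊1 / a⌋₊), Real.exp_pos _, fun θ hθ _ => Real.exp_le_exp.2 (neg_le_neg (hSm
      (Nat.floor_mono (one_div_le_one_div_of_le ha hθ))))⟩)
  have hkey : ∀ θ : ℝ, 0 < θ → θ < 1 → S ⌊1 / θ⌋₊ ≤ -Real.log (szDet (X (θ : TT))) := by
    intro θ h0 h1
    have h2 := Real.log_le_log (hX0 (θ : TT)) (hle θ h0 h1)
    rw [Real.log_exp] at h2
    linarith
  have hfl : ∀ θ : ℝ, θ⁻¹ ≤ (⌊1 / θ⌋₊ : ℝ) + 1 := fun θ => by
    rw [← one_div]; exact (Nat.lt_floor_add_one _).le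
  refine ⟨χ, hχ, X, hX, hX0, big _ fun θ h0 h1 => ?_, big _ fun θ h0 h1 => ?_⟩
  · refine (hfl θ).trans (hL _ _ ?_)
    exact ((le_max_left _ _).trans (hSk _)).trans (hkey θ h0 h1)
  · exact (hfl θ).trans (((le_max_right _ _).trans (hSk _)).trans (hkey θ h0 h1))

end Pool.Agent.Results.MP_3b4bb3_an.NoIntegrability
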